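import Mathlib
import Pool.Agent.K3h11.BS.Stm

/-! # Brick TRIP: triples pairwise meeting in exactly one point, without a common point -/

namespace Pool.Agent.K3h87.BS.Trip

open Finset

variable {n : ℕ}

/-- A set meeting a triple in exactly one point contains exactly one of its three points. -/
theorem one {T : Finset (Fin n)} {x y z : Fin n} (h : (T ∩ {x, y, z}).card = 1)
    (hxy : x ≠ y) (hxz : x ≠ z) (hyz : y ≠ z) :
    (x ∈ T ∧ y ∉ T ∧ z ∉ T) ∨ (x ∉ T ∧ y ∈ T ∧ z ∉ T) ∨ (x ∉ T ∧ y ∉ T ∧ z ∈ T) := by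
  obtain ⟨u, hu⟩ := Finset.card_eq_one.mp h
  have hmem : ∀ v, v ∈ T → (v = x ∨ v = y ∨ v = z) → v = u := by
    intro v hv hv'
    have : v ∈ T ∩ {x, y, z} := by
      rw [Finset.mem_inter]
      refine ⟨hv, ?_⟩
      simpa using hv'
    rw [hu] at this
    simpa using this
  have hu' : u ∈ T ∧ (u = x ∨ u = y ∨ u = z) := by
    have : u ∈ T ∩ {x, y, z} := by rw [hu]; simp
    rw [Finset.mem_inter] at this
    exact ⟨this.1, by simpa using this.2⟩
  obtain ⟨huT, h1 | h1 | h1⟩ := hu'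
  · refine Or.inl ⟨h1 ▸ huT, fun h2 => ?_, fun h2 => ?_⟩
    · exact hxy (h1 ▸ (hmem y h2 (by simp)).symm)
    · exact hxz (h1 ▸ (hmem z h2 (by simp)).symm)
  · refine Or.inr (Or.inl ⟨fun h2 => ?_, h1 ▸ huT, fun h2 => ?_⟩)
    · exact hxy ((hmem x h2 (by simp)).trans h1)
    · exact hyz (h1 ▸ (hmem z h2 (by simp)).symm)
  · refine Or.inr (Or.inr ⟨fun h2 => ?_, fun h2 => ?_, h1 ▸ huT⟩)
    · exact hxz ((hmem x h2 (by simp)).trans h1)
    · exact hyz ((hmem y h2 (by simp)).trans h1)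

/-- Four different points do not lie in a triple. -/
theorem no4 {T : Finset (Fin n)} (hT : T.card = 3) {w p q r : Fin n} (hw : w ∈ T) (hp : p ∈ T)
    (hq : q ∈ T) (hr : r ∈ T) (h1 : w ≠ p) (h2 : w ≠ q) (h3 : w ≠ r) (h4 : p ≠ q) (h5 : p ≠ r)
    (h6 : q ≠ r) : False := by
  have hs : ({w, p, q, r} : Finset (Fin n)) ⊆ T := by
    intro z hz
    simp only [Finset.mem_insert, Finset.mem_singleton] at hz
    rcases hz with rfl | rfl | rfl | rfl <;> assumption
  have := Finset.card_le_card hs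
  rw [hT, Finset.card_insert_of_notMem (by simp [h1, h2, h3]),
    Finset.card_eq_three.mpr ⟨p, q, r, h4, h5, h6, rfl⟩] at this
  omega

theorem eq3 {T : Finset (Fin n)} (hT : T.card = 3) {w p q : Fin n} (hw : w ∈ T) (hp : p ∈ T)
    (hq : q ∈ T) (h1 : w ≠ p) (h2 : w ≠ q) (h3 : p ≠ q) : T = {w, p, q} := by
  symm
  apply Finset.eq_of_subset_of_card_le
  · intro z hz
    simp only [Finset.mem_insert, Finset.mem_singleton] at hz
    rcases hz with rfl | rfl | rfl <;> assumption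
  · rw [hT, Finset.card_eq_three.mpr ⟨w, p, q, h1, h2, h3, rfl⟩]

/-- A triple meeting `{c, x, y}` in `c` only, in named form. -/
theorem name3 {T : Finset (Fin n)} (hT : T.card = 3) {c : Fin n} (hc : c ∈ T) :
    ∃ x y, c ≠ x ∧ c ≠ y ∧ x ≠ y ∧ T = {c, x, y} := by
  have h2 : (T.erase c).card = 2 := by rw [Finset.card_erase_of_mem hc, hT]
  obtain ⟨x, y, hxy, he⟩ := Finset.card_eq_two.mp h2
  have hx : x ∈ T.erase c := by rw [he]; simp
  have hy : y ∈ T.erase c := by rw [he]; simp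
  exact ⟨x, y, (Finset.ne_of_mem_erase hx).symm, (Finset.ne_of_mem_erase hy).symm, hxy,
    eq3 hT hc (Finset.mem_of_mem_erase hx) (Finset.mem_of_mem_erase hy)
      (Finset.ne_of_mem_erase hx).symm (Finset.ne_of_mem_erase hy).symm hxy⟩

/-- The same with a second named point. -/
theorem name2 {T : Finset (Fin n)} (hT : T.card = 3) {c x : Fin n} (hc : c ∈ T) (hx : x ∈ T)
    (hcx : c ≠ x) : ∃ y, c ≠ y ∧ x ≠ y ∧ T = {c, x, y} := by
  have h2 : ((T.erase c).erase x).card = 1 := by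
    rw [Finset.card_erase_of_mem (Finset.mem_erase.mpr ⟨hcx.symm, hx⟩),
      Finset.card_erase_of_mem hc, hT]
  obtain ⟨y, he⟩ := Finset.card_eq_one.mp h2
  have hy : y ∈ (T.erase c).erase x := by rw [he]; simp
  rw [Finset.mem_erase, Finset.mem_erase] at hy
  exact ⟨y, hy.2.1.symm, hy.1.symm, eq3 hT hc hx hy.2.2 hcx hy.2.1.symm hy.1.symm⟩

theorem disj3 {x1 x2 x3 y1 y2 y3 u : Fin n} (h : u = x1 ∨ u = x2 ∨ u = x3)
    (h' : u = y1 ∨ u = y2 ∨ u = y3) (n11 : x1 ≠ y1) (n12 : x1 ≠ y2) (n13 : x1 ≠ y3)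
    (n21 : x2 ≠ y1) (n22 : x2 ≠ y2) (n23 : x2 ≠ y3) (n31 : x3 ≠ y1) (n32 : x3 ≠ y2)
    (n33 : x3 ≠ y3) : False := by
  rcases h with h | h | h <;> rcases h' with h' | h' | h'
  · exact n11 (h.symm.trans h')
  · exact n12 (h.symm.trans h')
  · exact n13 (h.symm.trans h')
  · exact n21 (h.symm.trans h')
  · exact n22 (h.symm.trans h')
  · exact n23 (h.symm.trans h')
  · exact n31 (h.symm.trans h')
  · exact n32 (h.symm.trans h')
  · exact n33 (h.symm.trans h')

/-- A point `w'` different from `w` and from `p`, `q` is not in `{w, p, q}`. -/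
theorem out3 {T : Finset (Fin n)} {w p q w' : Fin n} (hT : T = {w, p, q}) (hw' : w' ∈ T)
    (h1 : w ≠ w') (h2 : w' ≠ p) (h3 : w' ≠ q) : False := by
  rw [hT] at hw'
  simp only [Finset.mem_insert, Finset.mem_singleton] at hw'
  rcases hw' with h | h | h
  · exact h1 h.symm
  · exact h2 h
  · exact h3 h

/-- The three kinds of triples with a point outside the six points. -/
theorem kinds {T : Finset (Fin n)} {c a a' b b' d w : Fin n} (hT : T.card = 3)
    (hca : c ≠ a) (hca' : c ≠ a') (haa' : a ≠ a') (hcb : c ≠ b) (hcb' : c ≠ b') (hbb' : b ≠ b')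
    (hab : a ≠ b) (had : a ≠ d) (hbd : b ≠ d) (ha'b' : a' ≠ b') (hcd : c ≠ d) (hda' : a' ≠ d)
    (hdb' : b' ≠ d) (hab' : a ≠ b') (hba' : b ≠ a')
    (hA : (T ∩ {c, a, a'}).card = 1) (hB : (T ∩ {c, b, b'}).card = 1)
    (hC : (T ∩ {a, b, d}).card = 1) (hw : w ∈ T)
    (hwU : w ∉ ({c, a, a', b, b', d} : Finset (Fin n))) :
    T = {w, c, d} ∨ T = {w, a, b'} ∨ T = {w, b, a'} := by
  simp only [Finset.mem_insert, Finset.mem_singleton, not_or] at hwU
  obtain ⟨w1, w2, w3, w4, w5, w6⟩ := hwU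
  rcases one hA hca hca' haa' with ⟨h1, h2, h3⟩ | ⟨h1, h2, h3⟩ | ⟨h1, h2, h3⟩
  · rcases one hB hcb hcb' hbb' with ⟨h4, h5, h6⟩ | ⟨h4, h5, h6⟩ | ⟨h4, h5, h6⟩
    · rcases one hC hab had hbd with ⟨h7, h8, h9⟩ | ⟨h7, h8, h9⟩ | ⟨h7, h8, h9⟩
      · exact absurd h7 h2
      · exact absurd h8 h5
      · exact Or.inl (eq3 hT hw h1 h9 w1 w6 hcd)
    · exact absurd h1 h4
    · exact absurd h1 h4
  · rcases one hB hcb hcb' hbb' with ⟨h4, h5, h6⟩ | ⟨h4, h5, h6⟩ | ⟨h4, h5, h6⟩
    · exact absurd h4 h1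
    · rcases one hC hab had hbd with ⟨h7, h8, h9⟩ | ⟨h7, h8, h9⟩ | ⟨h7, h8, h9⟩
      · exact absurd h5 h8
      · exact absurd h2 h7
      · exact absurd h2 h7
    · exact Or.inr (Or.inl (eq3 hT hw h2 h6 w2 w5 hab'))
  · rcases one hB hcb hcb' hbb' with ⟨h4, h5, h6⟩ | ⟨h4, h5, h6⟩ | ⟨h4, h5, h6⟩
    · exact absurd h4 h1
    · exact Or.inr (Or.inr (eq3 hT hw h5 h3 w4 w3 hba'))
    · rcases one hC hab had hbd with ⟨h7, h8, h9⟩ | ⟨h7, h8, h9⟩ | ⟨h7, h8, h9⟩
      · exact absurd h7 h2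
      · exact absurd h8 h5
      · exact (no4 hT hw h3 h6 h9 w3 w5 w6 ha'b' hda' hdb').elim

theorem main : K3h11.BS.StTrip := by
  intro n P hP hPP hno
  classical
  by_cases hne : ∃ T, P T
  swap
  · exact ⟨∅, by simp, fun T hT => (hne ⟨T, hT⟩).elim⟩
  obtain ⟨A, hA⟩ := hne
  -- a second member
  have hAne : A.Nonempty := by
    rw [← Finset.card_pos, hP A hA]; norm_num
  obtain ⟨c0, hc0⟩ := hAne
  have hex : ∀ c, ∃ T, P T ∧ c ∉ T := by
    intro c
    by_contra hcon
    push Not at hcon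
    exact hno ⟨c, hcon⟩
  obtain ⟨B, hB, hc0B⟩ := hex c0
  have hAB : A ≠ B := by
    rintro rfl
    exact hc0B hc0
  obtain ⟨c, hc⟩ := Finset.card_eq_one.mp (hPP A B hA hB hAB)
  have hcAB : c ∈ A ∩ B := by rw [hc]; simp
  rw [Finset.mem_inter] at hcAB
  obtain ⟨hcA, hcB⟩ := hcAB
  obtain ⟨C, hC, hcC⟩ := hex c
  have hAC : C ≠ A := by rintro rfl; exact hcC hcA
  have hBC : C ≠ B := by rintro rfl; exact hcC hcB
  obtain ⟨a, ha⟩ := Finset.card_eq_one.mp (hPP C A hC hA hAC)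
  have ha1 : a ∈ C ∩ A := by rw [ha]; simp
  rw [Finset.mem_inter] at ha1
  obtain ⟨haC, haA⟩ := ha1
  obtain ⟨b, hb⟩ := Finset.card_eq_one.mp (hPP C B hC hB hBC)
  have hb1 : b ∈ C ∩ B := by rw [hb]; simp
  rw [Finset.mem_inter] at hb1
  obtain ⟨hbC, hbB⟩ := hb1
  have hca : c ≠ a := by rintro rfl; exact hcC haC
  have hcb : c ≠ b := by rintro rfl; exact hcC hbC
  have honly : ∀ z, z ∈ A → z ∈ B → z = c := by
    intro z h1 h2
    have : z ∈ A ∩ B := Finset.mem_inter.mpr ⟨h1, h2⟩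
    rw [hc] at this
    simpa using this
  have honlyA : ∀ z, z ∈ C → z ∈ A → z = a := by
    intro z h1 h2
    have : z ∈ C ∩ A := Finset.mem_inter.mpr ⟨h1, h2⟩
    rw [ha] at this
    simpa using this
  have honlyB : ∀ z, z ∈ C → z ∈ B → z = b := by
    intro z h1 h2
    have : z ∈ C ∩ B := Finset.mem_inter.mpr ⟨h1, h2⟩
    rw [hb] at this
    simpa using this
  have hab : a ≠ b := by
    rintro rfl
    exact hca (honly a haA hbB).symm
  obtain ⟨a', hca', haa', hAe⟩ := name2 (hP A hA) hcA haA hca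
  obtain ⟨b', hcb', hbb', hBe⟩ := name2 (hP B hB) hcB hbB hcb
  obtain ⟨d, had, hbd, hCe⟩ := name2 (hP C hC) haC hbC hab
  have ha'A : a' ∈ A := by rw [hAe]; simp
  have hb'B : b' ∈ B := by rw [hBe]; simp
  have hdC : d ∈ C := by rw [hCe]; simp
  have ha'b' : a' ≠ b' := by
    rintro rfl
    exact hca' (honly a' ha'A hb'B).symm
  have hcd : c ≠ d := by rintro rfl; exact hcC hdC
  have hda' : a' ≠ d := by
    rintro rfl
    exact haa' (honlyA a' hdC ha'A).symm
  have hdb' : b' ≠ d := by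
    rintro rfl
    exact hbb' (honlyB b' hdC hb'B).symm
  have hab' : a ≠ b' := by
    rintro rfl
    exact hca (honly a haA hb'B).symm
  have hba' : b ≠ a' := by
    rintro rfl
    exact hcb (honly b ha'A hbB).symm
  have hkinds : ∀ T, P T → ∀ w, w ∈ T → w ∉ ({c, a, a', b, b', d} : Finset (Fin n)) →
      T = {w, c, d} ∨ T = {w, a, b'} ∨ T = {w, b, a'} := by
    intro T hT w hw hwU
    have hwU' := hwU
    simp only [Finset.mem_insert, Finset.mem_singleton, not_or] at hwU'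
    obtain ⟨w1, w2, w3, w4, w5, w6⟩ := hwU'
    have hTA : T ≠ A := by
      rintro rfl
      rw [hAe] at hw
      simp [w1, w2, w3] at hw
    have hTB : T ≠ B := by
      rintro rfl
      rw [hBe] at hw
      simp [w1, w4, w5] at hw
    have hTC : T ≠ C := by
      rintro rfl
      rw [hCe] at hw
      simp [w2, w4, w6] at hw
    exact kinds (hP T hT) hca hca' haa' hcb hcb' hbb' hab had hbd ha'b' hcd hda' hdb' hab' hba'
      (hAe ▸ hPP T A hT hA hTA) (hBe ▸ hPP T B hT hB hTB) (hCe ▸ hPP T C hT hC hTC) hw hwU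
  have huniq : ∀ T, P T → ∀ w, w ∈ T → w ∉ ({c, a, a', b, b', d} : Finset (Fin n)) →
      ∀ T', P T' → ∀ w', w' ∈ T' → w' ∉ ({c, a, a', b, b', d} : Finset (Fin n)) → w = w' := by
    intro T hT w hw hwU T' hT' w' hw' hwU'
    by_contra hww
    have k1 := hkinds T hT w hw hwU
    have k2 := hkinds T' hT' w' hw' hwU'
    simp only [Finset.mem_insert, Finset.mem_singleton, not_or] at hwU hwU'
    obtain ⟨w1, w2, w3, w4, w5, w6⟩ := hwU
    obtain ⟨v1, v2, v3, v4, v5, v6⟩ := hwU'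
    have hTT : T ≠ T' := by
      rintro rfl
      rcases k1 with h | h | h
      · exact out3 h hw' hww v1 v6
      · exact out3 h hw' hww v2 v5
      · exact out3 h hw' hww v4 v3
    obtain ⟨u, hu⟩ := Finset.card_eq_one.mp (hPP T T' hT hT' hTT)
    have hsub : ∀ z, z ∈ T → z ∈ T' → z = u := by
      intro z h1 h2
      have : z ∈ T ∩ T' := Finset.mem_inter.mpr ⟨h1, h2⟩
      rw [hu] at this
      simpa using this
    have hu1 : u ∈ T ∩ T' := by rw [hu]; simp
    rw [Finset.mem_inter] at hu1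
    obtain ⟨huT, huT'⟩ := hu1
    rcases k1 with h | h | h <;> rcases k2 with h' | h' | h'
    · exact hcd ((hsub c (by rw [h]; simp) (by rw [h']; simp)).trans
        (hsub d (by rw [h]; simp) (by rw [h']; simp)).symm)
    · rw [h, Finset.mem_insert, Finset.mem_insert, Finset.mem_singleton] at huT
      rw [h', Finset.mem_insert, Finset.mem_insert, Finset.mem_singleton] at huT'
      exact disj3 huT huT' hww w2 w5 (Ne.symm v1) hca hcb' (Ne.symm v6) had.symm hdb'.symm
    · rw [h, Finset.mem_insert, Finset.mem_insert, Finset.mem_singleton] at huT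
      rw [h', Finset.mem_insert, Finset.mem_insert, Finset.mem_singleton] at huT'
      exact disj3 huT huT' hww w4 w3 (Ne.symm v1) hcb hca' (Ne.symm v6) hbd.symm hda'.symm
    · rw [h, Finset.mem_insert, Finset.mem_insert, Finset.mem_singleton] at huT
      rw [h', Finset.mem_insert, Finset.mem_insert, Finset.mem_singleton] at huT'
      exact disj3 huT huT' hww w1 w6 (Ne.symm v2) hca.symm had (Ne.symm v5) hcb'.symm hdb'
    · exact hab' ((hsub a (by rw [h]; simp) (by rw [h']; simp)).trans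
        (hsub b' (by rw [h]; simp) (by rw [h']; simp)).symm)
    · rw [h, Finset.mem_insert, Finset.mem_insert, Finset.mem_singleton] at huT
      rw [h', Finset.mem_insert, Finset.mem_insert, Finset.mem_singleton] at huT'
      exact disj3 huT huT' hww w4 w3 (Ne.symm v2) hab haa' (Ne.symm v5) hbb'.symm ha'b'.symm
    · rw [h, Finset.mem_insert, Finset.mem_insert, Finset.mem_singleton] at huT
      rw [h', Finset.mem_insert, Finset.mem_insert, Finset.mem_singleton] at huT'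
      exact disj3 huT huT' hww w1 w6 (Ne.symm v4) hcb.symm hbd (Ne.symm v3) hca'.symm hda'
    · rw [h, Finset.mem_insert, Finset.mem_insert, Finset.mem_singleton] at huT
      rw [h', Finset.mem_insert, Finset.mem_insert, Finset.mem_singleton] at huT'
      exact disj3 huT huT' hww w2 w5 (Ne.symm v4) hab.symm hbb' (Ne.symm v3) haa'.symm ha'b'
    · exact hba' ((hsub b (by rw [h]; simp) (by rw [h']; simp)).trans
        (hsub a' (by rw [h]; simp) (by rw [h']; simp)).symm)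
  have hU6 : ({c, a, a', b, b', d} : Finset (Fin n)).card ≤ 6 := Finset.card_le_six
  by_cases hout : ∃ T, P T ∧ ∃ w, w ∈ T ∧ w ∉ ({c, a, a', b, b', d} : Finset (Fin n))
  · obtain ⟨T, hT, w, hw, hwU⟩ := hout
    refine ⟨insert w {c, a, a', b, b', d}, ?_, ?_⟩
    · exact (Finset.card_insert_le _ _).trans (by omega)
    · intro T' hT' w' hw'
      by_cases h : w' ∈ ({c, a, a', b, b', d} : Finset (Fin n))
      · exact Finset.mem_insert_of_mem h
      · rw [huniq T hT w hw hwU T' hT' w' hw' h]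
        exact Finset.mem_insert_self _ _
  · refine ⟨{c, a, a', b, b', d}, hU6.trans (by norm_num), ?_⟩
    intro T hT w hw
    by_contra h
    exact hout ⟨T, hT, w, hw, h⟩

end Pool.Agent.K3h87.BS.Trip
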